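import Pool.Agent.K6.H19.UT.Final

/-!
# MP_755cca_al: `SL(n,ℤ) = UU⁻UU⁻` for all large `n`, so `L(A_{n-1}) = 2`

`U n` and `Um n` are the upper and lower unitriangular subgroups of `SL(n,ℤ)`, as sets.
For every `n ≥ 135` the least positive integer `L` with `SL(n,ℤ) = (U U⁻)^L` is `2`.
-/

namespace Pool.Agent.Results.MP_755cca_al.LargeRankTypeA

open Matrix Pointwise Pool.Agent.K6.H19.UT

/-- The upper unitriangular matrices, `U(A_{n-1},ℤ)`. -/
def U (n : ℕ) : Set (SpecialLinearGroup (Fin n) ℤ) :=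
  {g | (∀ i, g.1 i i = 1) ∧ ∀ i j, j < i → g.1 i j = 0}

/-- The lower unitriangular matrices, `U⁻(A_{n-1},ℤ)`. -/
def Um (n : ℕ) : Set (SpecialLinearGroup (Fin n) ℤ) :=
  {g | (∀ i, g.1 i i = 1) ∧ ∀ i j, i < j → g.1 i j = 0}

lemma rank_inj (n : ℕ) : Function.Injective (fun i : Fin n => (i : ℕ)) := fun _ _ h => Fin.ext h

lemma mem_two {n : ℕ} (g : SpecialLinearGroup (Fin n) ℤ)
    (h : Good (fun i : Fin n => (i : ℕ)) g.1) : g ∈ (U n * Um n) ^ 2 := by
  obtain ⟨a, b, c, d, ha, hb, hc, hd, e⟩ := h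
  rw [pow_two]
  refine ⟨⟨a, ha.det (rank_inj n)⟩ * ⟨b, hb.det (rank_inj n)⟩,
    ⟨⟨a, ha.det (rank_inj n)⟩, ⟨ha.1, fun i j hij => ha.2 i j hij⟩,
      ⟨b, hb.det (rank_inj n)⟩, ⟨hb.1, fun i j hij => hb.2 i j hij⟩, rfl⟩,
    ⟨c, hc.det (rank_inj n)⟩ * ⟨d, hd.det (rank_inj n)⟩,
    ⟨⟨c, hc.det (rank_inj n)⟩, ⟨hc.1, fun i j hij => hc.2 i j hij⟩,
      ⟨d, hd.det (rank_inj n)⟩, ⟨hd.1, fun i j hij => hd.2 i j hij⟩, rfl⟩, ?_⟩
  apply Subtype.ext
  change a * b * (c * d) = g.1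
  rw [e]
  simp only [Matrix.mul_assoc]

lemma not_one {n : ℕ} (hn : 2 ≤ n) : U n * Um n ≠ Set.univ := by
  intro h
  have h0 : (⟨0, by omega⟩ : Fin n) ≠ ⟨n - 1, by omega⟩ := by
    intro h
    have := congrArg Fin.val h
    simp only at this
    omega
  set i0 : Fin n := ⟨0, by omega⟩
  set i1 : Fin n := ⟨n - 1, by omega⟩ with hi1
  let g : SpecialLinearGroup (Fin n) ℤ :=
    ⟨transvection i1 i0 1, det_transvection_of_ne _ _ h0.symm _⟩ *
      ⟨transvection i0 i1 1, det_transvection_of_ne _ _ h0 _⟩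
  have hg : g ∈ U n * Um n := by rw [h]; trivial
  obtain ⟨u, hu, v, hv, huv⟩ := hg
  have e1 : g.1 i1 i1 = 2 := by
    change (transvection i1 i0 (1 : ℤ) * transvection i0 i1 1 : Matrix (Fin n) (Fin n) ℤ) i1 i1 = 2
    rw [transvection_mul_apply_same]
    simp [transvection, Matrix.single_apply, h0, h0.symm]
  have e2 : (u * v).1 i1 i1 = 1 := by
    change (u.1 * v.1) i1 i1 = 1
    rw [Matrix.mul_apply, Finset.sum_eq_single i1]
    · rw [hu.1, hv.1, one_mul]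
    · intro j _ hj
      have : j < i1 := by
        rw [Fin.lt_def, hi1]
        have h1 := j.2
        have h2 : (j : ℕ) ≠ n - 1 := fun h => hj (Fin.ext h)
        simp only
        omega
      rw [hu.2 i1 j this, zero_mul]
    · intro h; exact absurd (Finset.mem_univ _) h
  simp only at huv
  rw [huv, e1] at e2
  exact absurd e2 (by norm_num)

/-- **`L(A_{n-1}) = 2` for every `n ≥ 135`**: the least positive integer `L` with
`SL(n,ℤ) = (U(n,ℤ) U⁻(n,ℤ))^L` is two. -/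
theorem result (n : ℕ) (hn : 135 ≤ n) :
    IsLeast {L : ℕ | 0 < L ∧
      (U n * Um n) ^ L = (Set.univ : Set (SpecialLinearGroup (Fin n) ℤ))} 2 := by
  refine ⟨⟨by norm_num, ?_⟩, ?_⟩
  · rw [Set.eq_univ_iff_forall]
    intro g
    exact mem_two g (good_of_large hn g.1 g.2)
  · rintro L ⟨hL, hL'⟩
    by_contra hlt
    have : L = 1 := by omega
    subst this
    rw [pow_one] at hL'
    exact not_one (by omega) hL'

end Pool.Agent.Results.MP_755cca_al.LargeRankTypeA
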