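import Pool.Agent.K6.H19.UT.SpFactor

/-!
# MP_755cca_al: `Sp(2n,ℤ) = UU⁻UU⁻` for all large `n`, so `L(C_n) = 2`

`Sp(2n,ℤ)` is the symplectic group of the form with matrix `(0 -1; 1 0)`.  `U n` consists of the
symplectic matrices `(A B; 0 D)` with `A` upper unitriangular, `Um n` of the symplectic matrices
`(A 0; C D)` with `A` lower unitriangular.  For every `n ≥ 135` the least positive integer `L`
with `Sp(2n,ℤ) = (U U⁻)^L` is `2`.
-/

namespace Pool.Agent.Results.MP_755cca_al.LargeRankTypeC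

open Matrix Pointwise Pool.Agent.K6.H19.UT

/-- The unipotent radical `U(C_n,ℤ)` of the standard Borel subgroup of `Sp(2n,ℤ)`: symplectic
matrices `(A B; 0 D)` with `A` upper unitriangular. -/
def U (n : ℕ) : Set (symplecticGroup (Fin n) ℤ) :=
  {g | (∀ i j, g.1 (Sum.inr i) (Sum.inl j) = 0) ∧ (∀ i, g.1 (Sum.inl i) (Sum.inl i) = 1) ∧
    ∀ i j, j < i → g.1 (Sum.inl i) (Sum.inl j) = 0}

/-- The unipotent radical `U⁻(C_n,ℤ)` of the opposite Borel subgroup of `Sp(2n,ℤ)`: symplectic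
matrices `(A 0; C D)` with `A` lower unitriangular. -/
def Um (n : ℕ) : Set (symplecticGroup (Fin n) ℤ) :=
  {g | (∀ i j, g.1 (Sum.inl i) (Sum.inr j) = 0) ∧ (∀ i, g.1 (Sum.inl i) (Sum.inl i) = 1) ∧
    ∀ i j, i < j → g.1 (Sum.inl i) (Sum.inl j) = 0}

lemma mem_two {n : ℕ} (hn : 135 ≤ n) (g : symplecticGroup (Fin n) ℤ) : g ∈ (U n * Um n) ^ 2 := by
  obtain ⟨m, rfl⟩ := Nat.exists_eq_add_of_le' (show 3 ≤ n by omega)
  have hg : fromBlocks g.1.toBlocks₁₁ g.1.toBlocks₁₂ g.1.toBlocks₂₁ g.1.toBlocks₂₂ ∈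
      symplecticGroup (Fin (m + 3)) ℤ := by
    rw [Matrix.fromBlocks_toBlocks]; exact g.2
  obtain ⟨R, W, hR, hW, hdet⟩ := siegel _ _ _ _ hg
  obtain ⟨x, hx, y, hy, z, hz, w, hw, e⟩ := sp_factor g.1 g.2 hR hW (good_of_large hn _ hdet)
  rw [pow_two]
  exact ⟨x * y, ⟨x, hx, y, hy, rfl⟩, z * w, ⟨z, hz, w, hw, rfl⟩, e.symm⟩

lemma not_one {n : ℕ} (hn : 1 ≤ n) : U n * Um n ≠ Set.univ := by
  intro h
  have hg : SymplecticGroup.symJ (Fin n) ℤ ∈ U n * Um n := by rw [h]; trivial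
  obtain ⟨u, hu, v, hv, huv⟩ := hg
  have hu' : u.1 = fromBlocks u.1.toBlocks₁₁ u.1.toBlocks₁₂ 0 u.1.toBlocks₂₂ := by
    conv_lhs => rw [← Matrix.fromBlocks_toBlocks u.1]
    congr 1
    ext i j
    exact hu.1 i j
  have hv' : v.1 = fromBlocks v.1.toBlocks₁₁ 0 v.1.toBlocks₂₁ v.1.toBlocks₂₂ := by
    conv_lhs => rw [← Matrix.fromBlocks_toBlocks v.1]
    congr 1
    ext i j
    exact hv.1 i j
  have hum := u.2
  have hvm := v.2
  rw [hu', SymplecticGroup.fromBlocks_mem_iff] at hum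
  rw [hv', SymplecticGroup.fromBlocks_mem_iff] at hvm
  have h1 := congrArg Matrix.det hum.2.2
  have h2 := congrArg Matrix.det hvm.2.2
  rw [Matrix.transpose_zero, Matrix.zero_mul, sub_zero, Matrix.det_mul, Matrix.det_one] at h1
  rw [Matrix.mul_zero, sub_zero, Matrix.det_mul, Matrix.det_one] at h2
  have h3 : u.1 * v.1 = Matrix.J (Fin n) ℤ := congrArg Subtype.val huv
  rw [hu', hv', Matrix.J, Matrix.fromBlocks_multiply] at h3
  have h4 := congrArg Matrix.det (Matrix.fromBlocks_inj.mp h3).2.2.2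
  have hne : Nonempty (Fin n) := ⟨⟨0, hn⟩⟩
  rw [Matrix.mul_zero, zero_add, Matrix.det_mul, Matrix.det_zero] at h4
  rcases mul_eq_zero.mp h4 with h5 | h5
  · rw [h5, mul_zero] at h1; exact absurd h1 (by norm_num)
  · rw [h5, mul_zero] at h2; exact absurd h2 (by norm_num)

/-- **`L(C_n) = 2` for every `n ≥ 135`**: the least positive integer `L` with
`Sp(2n,ℤ) = (U U⁻)^L` is two. -/
theorem result (n : ℕ) (hn : 135 ≤ n) :
    IsLeast {L : ℕ | 0 < L ∧
      (U n * Um n) ^ L = (Set.univ : Set (symplecticGroup (Fin n) ℤ))} 2 := by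
  refine ⟨⟨by norm_num, ?_⟩, ?_⟩
  · rw [Set.eq_univ_iff_forall]
    intro g
    exact mem_two hn g
  · rintro L ⟨hL, hL'⟩
    by_contra hlt
    have : L = 1 := by omega
    subst this
    rw [pow_one] at hL'
    exact not_one (by omega) hL'

end Pool.Agent.Results.MP_755cca_al.LargeRankTypeC
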